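import Pool.Agent.H31.Co2

namespace Pool.Agent.Results.MP_a60c23_gt.Main

open Pool.Agent.H31.Co

theorem result : ∃ (X : Type) (_ : TopologicalSpace X), T0Space X ∧ CoCons X ∧
    ¬ CoCons (Lower X) :=
  ⟨X, inferInstance, inferInstance, finCons.coCons, fun h => lower IsClosed (fun _ h _ => h) h.cons⟩

end Pool.Agent.Results.MP_a60c23_gt.Main
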